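import Mathlib

/-!
# MP_458f19_an: renorming to fail the (-1)-ball-covering property

Let `X` contain an isomorphic copy `Z` of `ℓ₁(I)`, `I` uncountable.  Let `F` be the weak* compact set
of all functionals of norm at most `C` which take values `±1` at the images `u i` of the unit
vectors.  It is mapped onto the cube `{-1, 1}^I`.  Let `K` be a closed subset of `F` such that the map
of `K` onto the cube is irreducible, and put `N x = dist (x, Z) + sup {|f x| : f ∈ K}`.  The set
`{f ∈ K : f x > sup - ε}` contains the preimage of a nonempty open subset of the cube, which depends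
on finitely many coordinates only.  So `N (x + t u i) = N x + |t|` for all but countably many `i`.
-/

set_option autoImplicit false

open Cardinal Set Filter Topology

universe u

namespace Pool.Agent.Results.MP_458f19_an.FailMinusOne

/-- The space `X` with the norm `N` has the `α`-ball-covering property for the cardinal `κ`: there is
a set `A` of cardinality `κ` such that the unit sphere of `N` is covered by the open `N`-balls with
centres `a ∈ A` and radii `N a - α`. -/
def HasBCP {X : Type u} [AddCommGroup X] [Module ℝ X] (N : Seminorm ℝ X) (α : ℝ)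
    (κ : Cardinal.{u}) : Prop :=
  ∃ A : Set X, #A = κ ∧ {x : X | N x = 1} ⊆ ⋃ a ∈ A, {x : X | N (x - a) < N a - α}

/-- `N` is a norm on `X` which is equivalent to the given one. -/
def IsEquivalentNorm {X : Type u} [NormedAddCommGroup X] [NormedSpace ℝ X]
    (N : Seminorm ℝ X) : Prop :=
  ∃ a b : ℝ, 0 < a ∧ 0 < b ∧ ∀ x, a * ‖x‖ ≤ N x ∧ N x ≤ b * ‖x‖

/-- `X` contains an isomorphic copy of `ℓ₁(I)`. -/
def ContainsEllOne (I : Type u) (X : Type u) [NormedAddCommGroup X] [NormedSpace ℝ X] : Prop :=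
  ∃ T : lp (fun _ : I => ℝ) 1 →L[ℝ] X, ∃ c : ℝ, 0 < c ∧ ∀ z, c * ‖z‖ ≤ ‖T z‖

section ell

variable {I : Type u}

lemma hasSum_abs (z : lp (fun _ : I => ℝ) 1) : HasSum (fun i => |z i|) ‖z‖ := by
  have h := lp.hasSum_norm (p := 1) (by norm_num) z
  simpa using h

/-- the functional on `ℓ₁(I)` given by a bounded family of signs -/
lemma exists_sign (σ : I → ℝ) (hσ : ∀ i, σ i = 1 ∨ σ i = -1) :
    ∃ φ : StrongDual ℝ (lp (fun _ : I => ℝ) 1), ‖φ‖ ≤ 1 ∧
      ∀ z : lp (fun _ : I => ℝ) 1, HasSum (fun i => σ i * z i) (φ z) := by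
  have habs : ∀ i (x : ℝ), |σ i * x| = |x| := by
    intro i x
    rcases hσ i with h | h <;> rw [h] <;> simp
  have hsum : ∀ z : lp (fun _ : I => ℝ) 1, Summable (fun i => σ i * z i) := by
    intro z
    refine Summable.of_norm ?_
    simp only [Real.norm_eq_abs, habs]
    exact (hasSum_abs z).summable
  let φ₀ : lp (fun _ : I => ℝ) 1 →ₗ[ℝ] ℝ :=
    { toFun := fun z => ∑' i, σ i * z i
      map_add' := by
        intro z w
        rw [← (hsum z).tsum_add (hsum w)]
        refine tsum_congr fun i => ?_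
        rw [lp.coeFn_add, Pi.add_apply]
        ring
      map_smul' := by
        intro r z
        rw [RingHom.id_apply, smul_eq_mul, ← tsum_mul_left]
        refine tsum_congr fun i => ?_
        rw [lp.coeFn_smul, Pi.smul_apply, smul_eq_mul]
        ring }
  have hb : ∀ z, ‖φ₀ z‖ ≤ 1 * ‖z‖ := by
    intro z
    rw [one_mul, ← (hasSum_abs z).tsum_eq]
    have h1 : Summable (fun i => ‖σ i * z i‖) := by
      simp only [Real.norm_eq_abs, habs]
      exact (hasSum_abs z).summable
    refine (norm_tsum_le_tsum_norm h1).trans (le_of_eq ?_)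
    refine tsum_congr fun i => ?_
    rw [Real.norm_eq_abs, habs]
  refine ⟨φ₀.mkContinuous 1 hb, φ₀.mkContinuous_norm_le zero_le_one hb, fun z => ?_⟩
  exact (hsum z).hasSum

end ell

section main

variable {X : Type u} [NormedAddCommGroup X] [NormedSpace ℝ X] {I : Type u}

/-- extension of sign functionals -/
lemma exists_ext (T : lp (fun _ : I => ℝ) 1 →L[ℝ] X) {c : ℝ} (hc : 0 < c)
    (hT : ∀ z, c * ‖z‖ ≤ ‖T z‖) (σ : I → ℝ) (hσ : ∀ i, σ i = 1 ∨ σ i = -1) :
    ∃ f : StrongDual ℝ X, ‖f‖ ≤ 1 / c ∧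
      ∀ z : lp (fun _ : I => ℝ) 1, HasSum (fun i => σ i * z i) (f (T z)) := by
  obtain ⟨φ, hφ, hφs⟩ := exists_sign σ hσ
  have hinj : Function.Injective T := by
    intro z w h
    have h1 := hT (z - w)
    rw [map_sub, h, sub_self, norm_zero] at h1
    have h2 : ‖z - w‖ ≤ 0 := by
      by_contra hcon
      push Not at hcon
      have := mul_pos hc hcon
      linarith
    exact sub_eq_zero.1 (norm_le_zero_iff.1 h2)
  let e : lp (fun _ : I => ℝ) 1 ≃ₗ[ℝ] LinearMap.range (T : lp (fun _ : I => ℝ) 1 →ₗ[ℝ] X) :=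
    LinearEquiv.ofInjective _ hinj
  let g₀ : LinearMap.range (T : lp (fun _ : I => ℝ) 1 →ₗ[ℝ] X) →ₗ[ℝ] ℝ :=
    (φ : lp (fun _ : I => ℝ) 1 →ₗ[ℝ] ℝ) ∘ₗ (e.symm : _ →ₗ[ℝ] lp (fun _ : I => ℝ) 1)
  have hb : ∀ y, ‖g₀ y‖ ≤ (1 / c) * ‖y‖ := by
    intro y
    obtain ⟨z, rfl⟩ := e.surjective y
    have h1 : g₀ (e z) = φ z := by
      show φ (e.symm (e z)) = φ z
      rw [e.symm_apply_apply]
    have h2 : ‖e z‖ = ‖T z‖ := rfl
    rw [h1, h2]
    have h3 : ‖φ z‖ ≤ ‖z‖ := by
      refine (φ.le_opNorm z).trans ?_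
      exact mul_le_of_le_one_left (norm_nonneg _) hφ
    have h4 := hT z
    rw [one_div, ← div_eq_inv_mul, le_div_iff₀ hc]
    nlinarith
  obtain ⟨f, hf1, hf2⟩ := exists_extension_norm_eq _ (g₀.mkContinuous (1 / c) hb)
  refine ⟨f, ?_, fun z => ?_⟩
  · rw [hf2]
    exact g₀.mkContinuous_norm_le (by positivity) hb
  · have h1 : f (T z) = φ z := by
      have h2 := hf1 (e z)
      have h3 : ((e z : LinearMap.range (T : lp (fun _ : I => ℝ) 1 →ₗ[ℝ] X)) : X) = T z := rfl
      rw [h3] at h2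
      rw [h2]
      show φ (e.symm (e z)) = φ z
      rw [e.symm_apply_apply]
    rw [h1]
    exact hφs z

/-- the irreducible set of functionals -/
lemma exists_K (T : lp (fun _ : I => ℝ) 1 →L[ℝ] X) {c : ℝ} (hc : 0 < c)
    (hT : ∀ z, c * ‖z‖ ≤ ‖T z‖) (u : I → X)
    (hu : ∀ (σ : I → ℝ) (f : StrongDual ℝ X),
      (∀ z : lp (fun _ : I => ℝ) 1, HasSum (fun i => σ i * z i) (f (T z))) → ∀ i, f (u i) = σ i) :
    ∃ K : Set (StrongDual ℝ X), (∀ f ∈ K, ‖f‖ ≤ 1 / c) ∧ (∀ f ∈ K, ∀ i, |f (u i)| = 1) ∧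
      (∀ σ : I → ℝ, (∀ i, σ i = 1 ∨ σ i = -1) → ∃ f ∈ K, ∀ i, f (u i) = σ i) ∧
      ∀ (x : X) (r : ℝ), (∃ f ∈ K, r < f x) →
        ∃ G : Finset I, ∀ i, i ∉ G → ∀ s : ℝ, s = 1 ∨ s = -1 → ∃ f ∈ K, r < f x ∧ f (u i) = s := by
  classical
  -- the compact set of all sign functionals
  let F : Set (WeakDual ℝ X) :=
    (WeakDual.toStrongDual ⁻¹' Metric.closedBall (0 : StrongDual ℝ X) (1 / c)) ∩
      {f | ∀ i, f (u i) = 1 ∨ f (u i) = -1}
  have hFc : IsCompact F := by
    refine (WeakDual.isCompact_closedBall (0 : StrongDual ℝ X) (1 / c)).inter_right ?_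
    have : {f : WeakDual ℝ X | ∀ i, f (u i) = 1 ∨ f (u i) = -1} =
        ⋂ i, ({f : WeakDual ℝ X | f (u i) = 1} ∪ {f : WeakDual ℝ X | f (u i) = -1}) := by
      ext f
      simp
    rw [this]
    refine isClosed_iInter fun i => ?_
    exact (isClosed_eq (WeakDual.eval_continuous (u i)) continuous_const).union
      (isClosed_eq (WeakDual.eval_continuous (u i)) continuous_const)
  have : CompactSpace F := isCompact_iff_compactSpace.1 hFc
  let A : Type u := {σ : I → ℝ // ∀ i, σ i = 1 ∨ σ i = -1}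
  let π : F → A := fun f => ⟨fun i => (f : WeakDual ℝ X) (u i), f.2.2⟩
  have hπ : Continuous π := by
    refine Continuous.subtype_mk ?_ _
    refine continuous_pi fun i => ?_
    exact (WeakDual.eval_continuous (u i)).comp continuous_subtype_val
  have hsurj : Function.Surjective π := by
    rintro ⟨σ, hσ⟩
    obtain ⟨f, hf1, hf2⟩ := exists_ext T hc hT σ hσ
    have hfu := hu σ f hf2
    refine ⟨⟨StrongDual.toWeakDual f, ?_, ?_⟩, ?_⟩
    · show f ∈ Metric.closedBall (0 : StrongDual ℝ X) (1 / c)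
      rw [mem_closedBall_zero_iff]
      exact hf1
    · intro i
      show f (u i) = 1 ∨ f (u i) = -1
      rw [hfu i]
      exact hσ i
    · apply Subtype.ext
      funext i
      exact hfu i
  obtain ⟨E, hEc, hE1, hE2⟩ := exists_compact_surjective_zorn_subset hπ hsurj
  let K : Set (StrongDual ℝ X) := {f | ∃ h : StrongDual.toWeakDual f ∈ F,
    (⟨StrongDual.toWeakDual f, h⟩ : F) ∈ E}
  have hKF : ∀ f ∈ K, StrongDual.toWeakDual f ∈ F := fun f hf => hf.1
  refine ⟨K, ?_, ?_, ?_, ?_⟩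
  · intro f hf
    have := (hKF f hf).1
    have h2 : f ∈ Metric.closedBall (0 : StrongDual ℝ X) (1 / c) := this
    rwa [mem_closedBall_zero_iff] at h2
  · intro f hf i
    have h2 : f (u i) = 1 ∨ f (u i) = -1 := (hKF f hf).2 i
    rcases h2 with h | h <;> rw [h] <;> simp
  · intro σ hσ
    have h1 : (⟨σ, hσ⟩ : A) ∈ π '' E := by rw [hE1]; trivial
    obtain ⟨g, hgE, hgσ⟩ := h1
    refine ⟨WeakDual.toStrongDual (g : WeakDual ℝ X), ⟨g.2, hgE⟩, fun i => ?_⟩
    have h2 := congrArg (fun a : A => a.1 i) hgσ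
    exact h2
  · rintro x r ⟨f₀, hf₀K, hf₀⟩
    -- the closed complement
    let E₀ : Set E := {g | (g : F).1 x ≤ r}
    have hcl : IsClosed E₀ := by
      have hcont : Continuous fun g : E => ((g : F) : WeakDual ℝ X) x :=
        (WeakDual.eval_continuous x).comp (continuous_subtype_val.comp continuous_subtype_val)
      exact isClosed_le hcont continuous_const
    have hne : E₀ ≠ Set.univ := by
      intro h
      obtain ⟨hF0, hE0⟩ := hf₀K
      have h1 : (⟨⟨StrongDual.toWeakDual f₀, hF0⟩, hE0⟩ : E) ∈ E₀ := by rw [h]; trivial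
      have h2 : f₀ x ≤ r := h1
      linarith
    have himg := hE2 E₀ hne hcl
    -- the image is compact, hence closed
    have hclimg : IsClosed (E.domRestrict π '' E₀) := by
      have := hEc
      refine (hcl.isCompact.image ?_).isClosed
      exact hπ.comp continuous_subtype_val
    obtain ⟨σ₀, hσ₀⟩ : ∃ σ₀ : A, σ₀ ∉ E.domRestrict π '' E₀ := by
      by_contra hcon
      push Not at hcon
      exact himg (eq_univ_of_forall hcon)
    have hopen : IsOpen (E.domRestrict π '' E₀)ᶜ := hclimg.isOpen_compl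
    obtain ⟨W, hW, hWeq⟩ := isOpen_induced_iff.1 hopen
    have hσW : (σ₀ : I → ℝ) ∈ W := by
      have : σ₀ ∈ Subtype.val ⁻¹' W := by rw [hWeq]; exact hσ₀
      exact this
    obtain ⟨G, v, hv, hGv⟩ := isOpen_pi_iff.1 hW _ hσW
    refine ⟨G, fun i hi s hs => ?_⟩
    let σ : I → ℝ := Function.update σ₀.1 i s
    have hσ : ∀ j, σ j = 1 ∨ σ j = -1 := by
      intro j
      by_cases hj : j = i
      · subst hj
        simp only [σ, Function.update_self]
        exact hs
      · simp only [σ, Function.update_of_ne hj]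
        exact σ₀.2 j
    have h1 : (⟨σ, hσ⟩ : A) ∉ E.domRestrict π '' E₀ := by
      have h2 : (⟨σ, hσ⟩ : A) ∈ Subtype.val ⁻¹' W := by
        refine hGv ?_
        intro j hj
        have hji : j ≠ i := by
          rintro rfl
          exact hi hj
        have h3 : σ j = σ₀.1 j := by
          simp only [σ, Function.update_of_ne hji]
        show σ j ∈ v j
        rw [h3]
        exact (hv j hj).2
      rw [hWeq] at h2
      exact h2
    have h4 : (⟨σ, hσ⟩ : A) ∈ π '' E := by rw [hE1]; trivial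
    obtain ⟨g, hgE, hgσ⟩ := h4
    refine ⟨WeakDual.toStrongDual (g : WeakDual ℝ X), ⟨g.2, hgE⟩, ?_, ?_⟩
    · by_contra hcon
      push Not at hcon
      apply h1
      refine ⟨⟨g, hgE⟩, hcon, ?_⟩
      exact hgσ
    · have h5 := congrArg (fun a : A => a.1 i) hgσ
      have h6 : σ i = s := by simp only [σ, Function.update_self]
      exact h5.trans h6

/-- the supremum of the absolute values of a bounded set of functionals -/
lemma exists_p (K : Set (StrongDual ℝ X)) (hne : K.Nonempty) (C : ℝ) (hK : ∀ f ∈ K, ‖f‖ ≤ C) :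
    ∃ p : Seminorm ℝ X, (∀ x, p x ≤ C * ‖x‖) ∧ (∀ f ∈ K, ∀ x, |f x| ≤ p x) ∧
      ∀ (x : X) (r : ℝ), r < p x → ∃ f ∈ K, r < |f x| := by
  have : Nonempty K := hne.to_subtype
  have hle : ∀ (f : K) (x : X), |f.1 x| ≤ C * ‖x‖ := by
    intro f x
    refine (f.1.le_opNorm x).trans ?_
    exact mul_le_mul_of_nonneg_right (hK _ f.2) (norm_nonneg _)
  have hbdd : ∀ x : X, BddAbove (range fun f : K => |f.1 x|) := by
    intro x
    refine ⟨C * ‖x‖, ?_⟩
    rintro _ ⟨f, rfl⟩
    exact hle f x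
  let g : X → ℝ := fun x => ⨆ f : K, |f.1 x|
  have hg : ∀ (f : K) (x : X), |f.1 x| ≤ g x := fun f x => le_ciSup (hbdd x) f
  have hadd : ∀ x y, g (x + y) ≤ g x + g y := by
    intro x y
    refine ciSup_le fun f => ?_
    rw [map_add]
    exact (abs_add_le _ _).trans (add_le_add (hg f x) (hg f y))
  have hsm : ∀ (a : ℝ) (x : X), g (a • x) = ‖a‖ * g x := by
    intro a x
    show (⨆ f : K, |f.1 (a • x)|) = ‖a‖ * ⨆ f : K, |f.1 x|
    rw [Real.mul_iSup_of_nonneg (norm_nonneg a)]
    refine iSup_congr fun f => ?_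
    rw [map_smul, smul_eq_mul, abs_mul, Real.norm_eq_abs]
  refine ⟨Seminorm.of g hadd hsm, fun x => ciSup_le fun f => hle f x,
    fun f hf x => hg ⟨f, hf⟩ x, fun x r hr => ?_⟩
  obtain ⟨f, hf⟩ := exists_lt_of_lt_ciSup (show r < ⨆ f : K, |f.1 x| from hr)
  exact ⟨f.1, f.2, hf⟩

/-- The renorming: for each `x` all but countably many `u i` are orthogonal to `x` in the sense of
`ℓ₁`. -/
theorem renorming (T : lp (fun _ : I => ℝ) 1 →L[ℝ] X) {c : ℝ} (hc : 0 < c)
    (hT : ∀ z, c * ‖z‖ ≤ ‖T z‖) :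
    ∃ (N : Seminorm ℝ X) (u : I → X), IsEquivalentNorm N ∧ (∀ i, N (u i) = 1) ∧
      ∀ x : X, ∃ S : Set I, S.Countable ∧ ∀ i, i ∉ S → ∀ t : ℝ, N (x + t • u i) = N x + |t| := by
  classical
  let u : I → X := fun i => T (lp.single 1 i (1 : ℝ))
  have hu : ∀ (σ : I → ℝ) (f : StrongDual ℝ X),
      (∀ z : lp (fun _ : I => ℝ) 1, HasSum (fun i => σ i * z i) (f (T z))) →
      ∀ i, f (u i) = σ i := by
    intro σ f h i
    have h1 := h (lp.single 1 i (1 : ℝ))
    have h2 : HasSum (fun j => σ j * (lp.single 1 i (1 : ℝ) : lp (fun _ : I => ℝ) 1) j) (σ i) := by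
      have h3 : (fun j => σ j * (lp.single 1 i (1 : ℝ) : lp (fun _ : I => ℝ) 1) j) =
          fun j => if j = i then σ i else 0 := by
        funext j
        by_cases hj : j = i
        · subst hj
          rw [lp.single_apply_self, mul_one, if_pos rfl]
        · rw [lp.single_apply_ne _ _ _ hj, mul_zero, if_neg hj]
      rw [h3]
      exact hasSum_ite_eq i (σ i)
    exact h1.unique h2
  obtain ⟨K, hK1, hK2, hK3, hK4⟩ := exists_K T hc hT u hu
  have hKne : K.Nonempty := by
    obtain ⟨f, hf, -⟩ := hK3 (fun _ => 1) (fun _ => Or.inl rfl)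
    exact ⟨f, hf⟩
  obtain ⟨p, hp1, hp2, hp3⟩ := exists_p K hKne (1 / c) hK1
  let Z : Submodule ℝ X := LinearMap.range (T : lp (fun _ : I => ℝ) 1 →ₗ[ℝ] X)
  let q : Seminorm ℝ X := (normSeminorm ℝ (X ⧸ Z)).comp Z.mkQ
  have hq : ∀ x, q x = ‖(Z.mkQ x : X ⧸ Z)‖ := fun x => rfl
  have hqz : ∀ x z, z ∈ Z → q (x + z) = q x := by
    intro x z hz
    rw [hq, hq, map_add]
    have : Z.mkQ z = 0 := by
      rw [Submodule.mkQ_apply, Submodule.Quotient.mk_eq_zero]
      exact hz
    rw [this, add_zero]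
  have huZ : ∀ (i : I) (t : ℝ), t • u i ∈ Z := fun i t => Z.smul_mem t ⟨_, rfl⟩
  -- growth of `p`
  have hgrow : ∀ (x : X) (ε : ℝ), 0 < ε → ∃ G : Finset I, ∀ i, i ∉ G → ∀ t : ℝ,
      p x - ε + |t| ≤ p (x + t • u i) := by
    intro x ε hε
    obtain ⟨f₀, hf₀K, hf₀⟩ := hp3 x (p x - ε) (by linarith)
    -- the sign of `f₀ x`
    obtain ⟨τ, hτ, hτf⟩ : ∃ τ : ℝ, (τ = 1 ∨ τ = -1) ∧ p x - ε < f₀ (τ • x) := by
      rcases le_total 0 (f₀ x) with h | h
      · refine ⟨1, Or.inl rfl, ?_⟩
        rw [one_smul]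
        rwa [abs_of_nonneg h] at hf₀
      · refine ⟨-1, Or.inr rfl, ?_⟩
        rw [map_smul, smul_eq_mul]
        rw [abs_of_nonpos h] at hf₀
        linarith
    obtain ⟨G, hG⟩ := hK4 (τ • x) (p x - ε) ⟨f₀, hf₀K, hτf⟩
    refine ⟨G, fun i hi t => ?_⟩
    have hττ : τ * τ = 1 := by rcases hτ with h | h <;> rw [h] <;> norm_num
    obtain ⟨s, hs, hst⟩ : ∃ s : ℝ, (s = 1 ∨ s = -1) ∧ s * t = |t| := by
      rcases le_total 0 t with h | h
      · exact ⟨1, Or.inl rfl, by rw [abs_of_nonneg h, one_mul]⟩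
      · exact ⟨-1, Or.inr rfl, by rw [abs_of_nonpos h]; ring⟩
    have hτs : τ * s = 1 ∨ τ * s = -1 := by
      rcases hτ with h | h <;> rcases hs with h' | h' <;> rw [h, h'] <;> norm_num
    obtain ⟨f, hfK, hf1, hf2⟩ := hG i hi (τ * s) hτs
    have h1 : f (τ • (x + t • u i)) = f (τ • x) + |t| := by
      have h0 : f (τ • (x + t • u i)) = f (τ • x) + τ * (t * f (u i)) := by
        rw [smul_add, map_add]
        congr 1
        rw [map_smul, map_smul, smul_eq_mul, smul_eq_mul]
      have : τ * (t * (τ * s)) = (τ * τ) * (s * t) := by ring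
      rw [h0, hf2, this, hττ, hst, one_mul]
    have h2 : p (τ • (x + t • u i)) = p (x + t • u i) := by
      rw [map_smul_eq_mul, Real.norm_eq_abs]
      have : |τ| = 1 := by rcases hτ with h | h <;> rw [h] <;> simp
      rw [this, one_mul]
    have h3 := (le_abs_self _).trans (hp2 f hfK (τ • (x + t • u i)))
    rw [h2, h1] at h3
    linarith
  have hpu : ∀ i, p (u i) = 1 := by
    intro i
    obtain ⟨f, hf⟩ := hKne
    have h1 := hp2 f hf (u i)
    rw [hK2 f hf i] at h1
    refine le_antisymm ?_ h1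
    by_contra hcon
    push Not at hcon
    obtain ⟨g, hg, hg1⟩ := hp3 _ _ hcon
    rw [hK2 g hg i] at hg1
    exact lt_irrefl _ hg1
  have hN : ∀ x, (p + q) x = p x + q x := fun x => rfl
  refine ⟨p + q, u, ?_, ?_, ?_⟩
  · -- equivalence
    have hpT : ∀ z : lp (fun _ : I => ℝ) 1, ‖z‖ ≤ p (T z) := by
      intro z
      obtain ⟨f, hf, hfσ⟩ := hK3 (fun i => if 0 ≤ z i then 1 else -1) (by
        intro i
        by_cases h : 0 ≤ z i
        · left; simp [h]
        · right; simp [h])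
      have h1 : f (T z) = ‖z‖ := by
        have h2 := (lp.hasSum_single (E := fun _ : I => ℝ) (p := 1) (by norm_num) z)
        have h3 : HasSum (fun i => f (T (lp.single 1 i (z i)))) (f (T z)) := by
          exact (h2.mapL T).mapL f
        have h4 : (fun i => f (T (lp.single 1 i (z i)))) = fun i => |z i| := by
          funext i
          have h5 : (lp.single 1 i (z i) : lp (fun _ : I => ℝ) 1) =
              z i • (lp.single 1 i (1 : ℝ) : lp (fun _ : I => ℝ) 1) := by
            rw [← lp.single_smul, smul_eq_mul, mul_one]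
          rw [h5, map_smul, map_smul, smul_eq_mul]
          have h6 := hfσ i
          have h7 : f (T (lp.single 1 i (1 : ℝ))) = if 0 ≤ z i then 1 else -1 := h6
          rw [h7]
          by_cases h : 0 ≤ z i
          · rw [if_pos h, abs_of_nonneg h, mul_one]
          · rw [if_neg h, abs_of_neg (not_le.1 h)]; ring
        rw [h4] at h3
        exact h3.unique (hasSum_abs z)
      have h2 := (le_abs_self _).trans (hp2 f hf (T z))
      rwa [h1] at h2
    set M : ℝ := ‖T‖ + (1 + ‖T‖ * (1 / c)) with hM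
    have hM0 : 0 < M := by positivity
    refine ⟨1 / M, 1 / c + 1, by positivity, by positivity, fun x => ⟨?_, ?_⟩⟩
    · rw [one_div, ← div_eq_inv_mul, div_le_iff₀ hM0]
      refine le_of_forall_pos_le_add fun ε hε => ?_
      obtain ⟨y, hy, hyn⟩ := Submodule.Quotient.norm_mk_lt (S := Z) (Submodule.Quotient.mk x)
        (ε := ε / M) (by positivity)
      have hyx : x - y ∈ Z := by
        rw [Submodule.Quotient.eq] at hy
        have := Z.neg_mem hy
        rwa [neg_sub] at this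
      obtain ⟨z, hz⟩ := hyx
      have hz' : T z = x - y := hz
      have hq' : ‖(Submodule.Quotient.mk x : X ⧸ Z)‖ = q x := rfl
      rw [hq'] at hyn
      have e1 : ‖x‖ ≤ ‖T z‖ + ‖y‖ := by
        have : x = T z + y := by rw [hz']; abel
        calc ‖x‖ = ‖T z + y‖ := by rw [← this]
          _ ≤ ‖T z‖ + ‖y‖ := norm_add_le _ _
      have e2 : ‖T z‖ ≤ ‖T‖ * ‖z‖ := T.le_opNorm z
      have e3 : ‖z‖ ≤ p x + (1 / c) * ‖y‖ := by
        refine (hpT z).trans ?_
        rw [hz']
        refine (map_sub_le_add p x y).trans ?_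
        have := hp1 y
        linarith
      have e4 : ‖T‖ * ‖z‖ ≤ ‖T‖ * (p x + (1 / c) * ‖y‖) :=
        mul_le_mul_of_nonneg_left e3 (norm_nonneg _)
      have e5 : ‖x‖ ≤ ‖T‖ * p x + (1 + ‖T‖ * (1 / c)) * ‖y‖ := by
        calc ‖x‖ ≤ ‖T‖ * (p x + (1 / c) * ‖y‖) + ‖y‖ := by linarith
          _ = ‖T‖ * p x + (1 + ‖T‖ * (1 / c)) * ‖y‖ := by ring
      have hk : 0 < 1 + ‖T‖ * (1 / c) := by positivity
      have e6 : (1 + ‖T‖ * (1 / c)) * ‖y‖ ≤ (1 + ‖T‖ * (1 / c)) * (q x + ε / M) :=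
        mul_le_mul_of_nonneg_left hyn.le hk.le
      have e7 : (1 + ‖T‖ * (1 / c)) * (ε / M) ≤ ε := by
        have h1 : 1 + ‖T‖ * (1 / c) ≤ M := by
          rw [hM]
          have := norm_nonneg T
          linarith
        calc (1 + ‖T‖ * (1 / c)) * (ε / M) ≤ M * (ε / M) :=
              mul_le_mul_of_nonneg_right h1 (by positivity)
          _ = ε := by field_simp
      have hp0 : 0 ≤ p x := apply_nonneg p x
      have hq0 : 0 ≤ q x := apply_nonneg q x
      have e8 : ‖T‖ * p x ≤ M * p x := by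
        refine mul_le_mul_of_nonneg_right ?_ hp0
        rw [hM]
        linarith
      have e9 : (1 + ‖T‖ * (1 / c)) * q x ≤ M * q x := by
        refine mul_le_mul_of_nonneg_right ?_ hq0
        rw [hM]
        have := norm_nonneg T
        linarith
      rw [hN]
      have e10 : (p x + q x) * M = M * p x + M * q x := by ring
      rw [e10]
      calc ‖x‖ ≤ ‖T‖ * p x + (1 + ‖T‖ * (1 / c)) * (q x + ε / M) := by linarith
        _ = ‖T‖ * p x + (1 + ‖T‖ * (1 / c)) * q x + (1 + ‖T‖ * (1 / c)) * (ε / M) := by ring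
        _ ≤ M * p x + M * q x + ε := by linarith
    · rw [hN]
      have h1 := hp1 x
      have h2 : q x ≤ ‖x‖ := Submodule.Quotient.norm_mk_le Z x
      linarith
  · intro i
    rw [hN, hpu i]
    have h1 := hqz 0 (u i) (by simpa using huZ i 1)
    rw [zero_add] at h1
    rw [h1, map_zero, add_zero]
  · intro x
    choose G hG using fun n : ℕ => hgrow x (1 / ((n : ℝ) + 1)) (by positivity)
    refine ⟨⋃ n, (G n : Set I), countable_iUnion fun n => (G n).countable_toSet, fun i hi t => ?_⟩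
    rw [hN, hN, hqz x _ (huZ i t)]
    have h1 : p x + |t| ≤ p (x + t • u i) := by
      refine le_of_forall_pos_le_add fun ε hε => ?_
      obtain ⟨n, hn⟩ := exists_nat_one_div_lt hε
      have hin : i ∉ G n := fun h => hi (mem_iUnion.2 ⟨n, h⟩)
      have := hG n i hin t
      linarith
    have h2 : p (x + t • u i) ≤ p x + |t| := by
      refine (map_add_le_add p _ _).trans ?_
      rw [map_smul_eq_mul, hpu i, mul_one, Real.norm_eq_abs]
    linarith

end main

/-- **Theorem.** Let `I` be an uncountable set and let the normed space `X` contain an isomorphic copy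
of `ℓ₁(I)`.  Then `X` has an equivalent norm `N` which fails the `(-1)`-ball-covering property for
all cardinals `κ < |I|` at once.  For `|I| = κ⁺`, `κ` an infinite cardinal, this is the renorming
asked for in Q1. -/
theorem result (X : Type u) [NormedAddCommGroup X] [NormedSpace ℝ X] (I : Type u) (hI : ℵ₀ < #I)
    (hX : ContainsEllOne I X) :
    ∃ N : Seminorm ℝ X, IsEquivalentNorm N ∧ ∀ κ : Cardinal.{u}, κ < #I → ¬ HasBCP N (-1) κ := by
  obtain ⟨T, c, hc, hT⟩ := hX
  obtain ⟨N, u, hN, hu, hS⟩ := renorming T hc hT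
  refine ⟨N, hN, ?_⟩
  rintro κ hκ ⟨A, hA, hcov⟩
  choose S hS1 hS2 using hS
  have hcard : #(⋃ a ∈ A, S a : Set I) < #I := by
    rcases A.eq_empty_or_nonempty with h0 | hne
    · subst h0
      simp only [mem_empty_iff_false, iUnion_of_empty, iUnion_empty]
      rw [Cardinal.mk_eq_zero]
      exact aleph0_pos.trans hI
    · rw [biUnion_eq_iUnion]
      have h1 : #(⋃ a : A, S a : Set I) ≤ #A * ⨆ a : A, #(S a) := mk_iUnion_le _
      refine h1.trans_lt ?_
      have h2 : (⨆ a : A, #(S a)) ≤ ℵ₀ := by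
        have : Nonempty A := hne.to_subtype
        exact ciSup_le' fun a => (hS1 a).le_aleph0
      refine (mul_le_mul' le_rfl h2).trans_lt ?_
      rw [hA]
      exact (mul_le_max_of_aleph0_le_right le_rfl).trans_lt (max_lt hκ hI)
  obtain ⟨i, hi⟩ : ∃ i, i ∉ (⋃ a ∈ A, S a : Set I) := by
    by_contra hcon
    push Not at hcon
    have : (⋃ a ∈ A, S a : Set I) = Set.univ := eq_univ_of_forall hcon
    rw [this, mk_univ] at hcard
    exact lt_irrefl _ hcard
  have h1 : u i ∈ {x : X | N x = 1} := hu i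
  obtain ⟨a, ha, hlt⟩ := mem_iUnion₂.1 (hcov h1)
  have h2 : i ∉ S a := fun h => hi (mem_iUnion₂.2 ⟨a, ha, h⟩)
  have h3 := hS2 a i h2 (-1)
  have h4 : N (u i - a) = N (a + (-1 : ℝ) • u i) := by
    rw [← map_neg_eq_map N (u i - a)]
    congr 1
    module
  have h5 : N (u i - a) < N a - (-1) := hlt
  rw [h4, h3] at h5
  norm_num at h5

end Pool.Agent.Results.MP_458f19_an.FailMinusOne
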